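import Pool.Agent.Helper89.UB.Stmts

set_option autoImplicit false

/-! Module ETN: product bound for the norm of `eta`. -/

open Finset

namespace Pool.Agent.Helper89.UB

theorem etn_conv {n : ℕ} (V U : Finset (Fin n)) (hVU : V ⊆ U) (a b : Finset (Fin n) → ℝ)
    (ha : ∀ S, 0 ≤ a S) (hb : ∀ S, 0 ≤ b S) :
    ∑ B ∈ V.powerset, ∑ S ∈ B.powerset, a S * b (B \ S) ≤
      (∑ S ∈ V.powerset, a S) * ∑ R ∈ U.powerset, b R := by
  have h1 : ∑ B ∈ V.powerset, ∑ S ∈ B.powerset, a S * b (B \ S) =
      ∑ S ∈ V.powerset, ∑ B ∈ V.powerset.filter (fun B => S ⊆ B), a S * b (B \ S) := by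
    refine Finset.sum_comm' ?_
    intro B S
    simp only [mem_powerset, mem_filter]
    constructor
    · rintro ⟨h, h'⟩
      exact ⟨⟨h, h'⟩, h'.trans h⟩
    · rintro ⟨⟨h, h'⟩, _⟩
      exact ⟨h, h'⟩
  rw [h1, Finset.sum_mul]
  refine Finset.sum_le_sum fun S _ => ?_
  rw [← Finset.mul_sum]
  refine mul_le_mul_of_nonneg_left ?_ (ha S)
  have h2 : ∑ B ∈ V.powerset.filter (fun B => S ⊆ B), b (B \ S) =
      ∑ R ∈ (V.powerset.filter (fun B => S ⊆ B)).image (fun B => B \ S), b R := by
    rw [Finset.sum_image]
    intro B hB C hC hBC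
    have hB' := (mem_filter.1 (Finset.mem_coe.1 hB)).2
    have hC' := (mem_filter.1 (Finset.mem_coe.1 hC)).2
    have h3 : B \ S = C \ S := hBC
    rw [← Finset.sdiff_union_of_subset hB', ← Finset.sdiff_union_of_subset hC', h3]
  rw [h2]
  refine Finset.sum_le_sum_of_subset_of_nonneg ?_ fun R _ _ => hb R
  intro R hR
  obtain ⟨B, hB, rfl⟩ := mem_image.1 hR
  rw [mem_powerset]
  exact (sdiff_subset.trans (mem_powerset.1 (mem_filter.1 hB).1)).trans hVU

theorem st_ETN (hS : ST_ETS) : ST_ETN := by
  intro n E hE x hx N
  induction N using Finset.induction_on with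
  | empty =>
    intro U
    have hf : fz E ∅ = 1 := by
      unfold fz
      rw [if_pos hE]
    have h1 : ∀ B ⊆ U, (fun B : Finset (Fin n) => if B = ∅ then (1 : ℤ) else 0) B =
        quo (fz E) (fun B => if Disjoint B ∅ then fz E B else 0) B := by
      refine quo_unique _ _ hf U _ ?_
      intro B _
      simp only [disjoint_empty_right, if_true]
      rw [Finset.sum_eq_single ∅]
      · simp
      · intro S _ hS
        simp [hS]
      · intro h
        exact absurd (empty_mem_powerset B) h
    rw [empty_inter, prod_empty]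
    have h2 : ∀ S ∈ U.powerset, |(eta E ∅ S : ℝ)| * x ^ S.card = if S = ∅ then (1 : ℝ) else 0 := by
      intro S hS
      have h3 : eta E ∅ S = if S = ∅ then (1 : ℤ) else 0 := by
        have := h1 S (mem_powerset.1 hS)
        rw [eta]
        exact this.symm
      rw [h3]
      by_cases h : S = ∅
      · simp [h]
      · simp [h]
    rw [Finset.sum_congr rfl h2]
    simp
  | insert u N hu ih =>
    intro U
    have hstep : ∀ B, |(eta E (insert u N) B : ℝ)| * x ^ B.card ≤
        |(eta E N B : ℝ)| * x ^ B.card + (if u ∈ B then x * ∑ S ∈ (B.erase u).powerset,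
          (|(kap E u S : ℝ)| * x ^ S.card) *
            (|(eta E N ((B.erase u) \ S) : ℝ)| * x ^ ((B.erase u) \ S).card) else 0) := by
      intro B
      rw [hS n E hE N u hu B]
      by_cases h : u ∈ B
      · rw [if_pos h, if_pos h]
        push_cast
        have h3 : |(eta E N B : ℝ) - ∑ S ∈ (B.erase u).powerset,
            (if Disjoint S N then (kap E u S : ℝ) else 0) * (eta E N ((B.erase u) \ S) : ℝ)| ≤
            |(eta E N B : ℝ)| + ∑ S ∈ (B.erase u).powerset,
              |(kap E u S : ℝ)| * |(eta E N ((B.erase u) \ S) : ℝ)| := by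
          refine (abs_sub _ _).trans ?_
          refine add_le_add le_rfl ?_
          refine (Finset.abs_sum_le_sum_abs _ _).trans ?_
          refine Finset.sum_le_sum fun S _ => ?_
          rw [abs_mul]
          refine mul_le_mul_of_nonneg_right ?_ (abs_nonneg _)
          by_cases h4 : Disjoint S N
          · rw [if_pos h4]
          · rw [if_neg h4, abs_zero]
            exact abs_nonneg _
        have h4 : x * ∑ S ∈ (B.erase u).powerset,
          (|(kap E u S : ℝ)| * x ^ S.card) *
            (|(eta E N ((B.erase u) \ S) : ℝ)| * x ^ ((B.erase u) \ S).card) =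
            (∑ S ∈ (B.erase u).powerset,
              |(kap E u S : ℝ)| * |(eta E N ((B.erase u) \ S) : ℝ)|) * x ^ B.card := by
          rw [Finset.mul_sum, Finset.sum_mul]
          refine Finset.sum_congr rfl fun S hS' => ?_
          have h5 : B.card = S.card + ((B.erase u) \ S).card + 1 := by
            have h6 := Finset.card_sdiff_add_card_eq_card (mem_powerset.1 hS')
            have h7 := Finset.card_erase_add_one h
            omega
          rw [h5]
          ring
        rw [h4, ← add_mul]
        exact mul_le_mul_of_nonneg_right h3 (pow_nonneg hx _)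
      · rw [if_neg h, if_neg h]
        simp
    have hsum : ∑ S ∈ U.powerset, |(eta E (insert u N) S : ℝ)| * x ^ S.card ≤
        ∑ B ∈ U.powerset, |(eta E N B : ℝ)| * x ^ B.card +
        ∑ B ∈ U.powerset, (if u ∈ B then x * ∑ S ∈ (B.erase u).powerset,
          (|(kap E u S : ℝ)| * x ^ S.card) *
            (|(eta E N ((B.erase u) \ S) : ℝ)| * x ^ ((B.erase u) \ S).card) else 0) := by
      rw [← Finset.sum_add_distrib]
      exact Finset.sum_le_sum fun B _ => hstep B
    refine hsum.trans ?_
    by_cases h : u ∈ U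
    · rw [Finset.insert_inter_of_mem h, Finset.prod_insert (fun h' => hu (mem_inter.1 h').1)]
      have h1 : ∑ B ∈ U.powerset, (if u ∈ B then x * ∑ S ∈ (B.erase u).powerset,
          (|(kap E u S : ℝ)| * x ^ S.card) *
            (|(eta E N ((B.erase u) \ S) : ℝ)| * x ^ ((B.erase u) \ S).card) else 0) =
          ∑ B ∈ (U.erase u).powerset, x * ∑ S ∈ B.powerset,
          (|(kap E u S : ℝ)| * x ^ S.card) *
            (|(eta E N (B \ S) : ℝ)| * x ^ (B \ S).card) := by
        rw [← Finset.sum_filter]
        refine Finset.sum_bij' (fun B _ => B.erase u) (fun B _ => insert u B) ?_ ?_ ?_ ?_ ?_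
        · intro B hB
          rw [mem_filter, mem_powerset] at hB
          exact mem_powerset.2 (Finset.erase_subset_erase u hB.1)
        · intro B hB
          rw [mem_powerset] at hB
          rw [mem_filter, mem_powerset]
          refine ⟨Finset.insert_subset h (hB.trans (Finset.erase_subset _ _)),
            mem_insert_self _ _⟩
        · intro B hB
          exact Finset.insert_erase (mem_filter.1 hB).2
        · intro B hB
          have h3 : u ∉ B := fun h4 => (Finset.notMem_erase u U) (mem_powerset.1 hB h4)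
          exact Finset.erase_insert h3
        · intro B hB
          rfl
      rw [h1, ← Finset.mul_sum]
      have h2 := etn_conv (U.erase u) U (Finset.erase_subset u U)
        (fun S => |(kap E u S : ℝ)| * x ^ S.card) (fun S => |(eta E N S : ℝ)| * x ^ S.card)
        (fun S => mul_nonneg (abs_nonneg _) (pow_nonneg hx _))
        (fun S => mul_nonneg (abs_nonneg _) (pow_nonneg hx _))
      have h3 := ih U
      have h0 : 0 ≤ ∑ S ∈ (U.erase u).powerset, |(kap E u S : ℝ)| * x ^ S.card :=
        Finset.sum_nonneg fun S _ => mul_nonneg (abs_nonneg _) (pow_nonneg hx _)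
      calc _ ≤ ∑ B ∈ U.powerset, |(eta E N B : ℝ)| * x ^ B.card +
            x * ((∑ S ∈ (U.erase u).powerset, |(kap E u S : ℝ)| * x ^ S.card) *
              ∑ R ∈ U.powerset, |(eta E N R : ℝ)| * x ^ R.card) :=
            add_le_add le_rfl (mul_le_mul_of_nonneg_left h2 hx)
        _ = (1 + x * ∑ S ∈ (U.erase u).powerset, |(kap E u S : ℝ)| * x ^ S.card) *
            ∑ R ∈ U.powerset, |(eta E N R : ℝ)| * x ^ R.card := by ring
        _ ≤ _ := mul_le_mul_of_nonneg_left h3 (by positivity)
    · rw [Finset.insert_inter_of_notMem h]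
      have h1 : ∑ B ∈ U.powerset, (if u ∈ B then x * ∑ S ∈ (B.erase u).powerset,
          (|(kap E u S : ℝ)| * x ^ S.card) *
            (|(eta E N ((B.erase u) \ S) : ℝ)| * x ^ ((B.erase u) \ S).card) else 0) = 0 := by
        refine Finset.sum_eq_zero fun B hB => ?_
        rw [if_neg]
        exact fun h' => h (mem_powerset.1 hB h')
      rw [h1, add_zero]
      exact ih U

end Pool.Agent.Helper89.UB
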